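import Pool.Agent.H282R4.PU.FinalU

/-!
# MP_e85462_co: `1 - f(w)` has exact order `w^(-7/5)` for `w = k + 1/2`
-/

namespace Pool.Agent.Results.MP_e85462_co.ExactOrder

open H282R4.PK

/-- maximum packing density `f(w) = N(w)/w²` -/
noncomputable def density (w : ℝ) : ℝ := (packNum w : ℝ) / w ^ 2

/-- There are `c, C > 0` with `c w^(-7/5) ≤ 1 - f(w) ≤ C w^(-7/5)` for all `w = k + 1/2`,
`k ≥ 1`; the upper bound holds for all real `w ≥ 1`. -/
theorem result :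
    (∃ c : ℝ, 0 < c ∧ ∀ k : ℕ, 1 ≤ k →
      c * ((k : ℝ) + 1 / 2) ^ (-(7 : ℝ) / 5) ≤ 1 - density ((k : ℝ) + 1 / 2)) ∧
    (∃ C : ℝ, 0 < C ∧ ∀ w : ℝ, 1 ≤ w → 1 - density w ≤ C * w ^ (-(7 : ℝ) / 5)) := by
  have h2 : ∀ w : ℝ, 0 < w → w ^ (-(7 : ℝ) / 5) = w ^ ((3 : ℝ) / 5) / w ^ 2 := by
    intro w hw
    rw [← Real.rpow_natCast, ← Real.rpow_sub hw]
    norm_num
  constructor
  · obtain ⟨δ, hδ, hmain⟩ := waste_ge
    refine ⟨δ, hδ, fun k hk => ?_⟩
    have hx : (0 : ℝ) < (k : ℝ) + 1 / 2 := by positivity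
    have h1 := hmain k hk
    unfold density
    unfold Waste at h1
    rw [h2 _ hx, ← mul_div_assoc, one_sub_div (by positivity)]
    gcongr
  · obtain ⟨C, hC, hup⟩ := H282R4.PU.waste_upper
    refine ⟨C, hC, fun w hw => ?_⟩
    have hx : (0 : ℝ) < w := by linarith
    have h1 := hup w hw
    unfold density
    unfold Waste at h1
    rw [h2 _ hx, ← mul_div_assoc, one_sub_div (by positivity)]
    gcongr

end Pool.Agent.Results.MP_e85462_co.ExactOrder
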